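import Pool.Agent.W_cd148b_h39.Red

/-!
MP_cd148b_lc: the question is reduced to cardinals `ν` of cofinality `ω` which are limits of many
cardinals and which are small compared with some power.
-/

namespace Pool.Agent.Results.MP_cd148b_lc.SpecialCardinals

open Pool.Agent.W_cd148b_h39

/-- If the statement of the question fails at `μ`, it fails at some special `ν ≤ μ`. -/
theorem result (μ : Cardinal.{0}) (h : ¬ Q μ) : ∃ ν ≤ μ, Special ν ∧ ¬ Q ν :=
  exists_special h

end Pool.Agent.Results.MP_cd148b_lc.SpecialCardinals
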